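import Mathlib

set_option autoImplicit false

/-! # The weak Cockayne–Lorimer property of random cubic graphs (MP_76d27f_co)

Definitions, and the statements `S_*` of the parts of the proof. Paper proofs are in the
docstrings. `Main.lean` proves the theorem from the statements `S_*`. -/

namespace Pool.Agent.H41.CL

open Finset

section Defs

variable {V : Type*}

/-- The members of `M` are pairwise disjoint. -/
def IsMat (M : Finset (Sym2 V)) : Prop :=
  ∀ e ∈ M, ∀ f ∈ M, e ≠ f → ∀ v, v ∈ e → v ∉ f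

/-- The matching number. -/
noncomputable def nu (G : SimpleGraph V) : ℕ :=
  sSup {k | ∃ M : Finset (Sym2 V), (∀ e ∈ M, e ∈ G.edgeSet) ∧ IsMat M ∧ M.card = k}

/-- `G → t K₂`: for every colouring of the edges there is a colour `j` with a matching of `t j`
edges of colour `j`. -/
def Arrows (G : SimpleGraph V) (q : ℕ) (t : Fin q → ℕ) : Prop :=
  ∀ c : Sym2 V → Fin q, ∃ j, ∃ M : Finset (Sym2 V),
    (∀ e ∈ M, e ∈ G.edgeSet ∧ c e = j) ∧ IsMat M ∧ M.card = t j

/-- `Λ_t`. -/
def Lam {q : ℕ} (t : Fin q → ℕ) : ℕ := ∑ i, (t i - 1)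

/-- `T_q(G)`. -/
def TT (q : ℕ) (G : SimpleGraph V) : Set (Fin q → ℕ) := {t | (∀ i, 1 ≤ t i) ∧ Arrows G q t}

/-- `ρ_q(G)`. -/
noncomputable def rho (q : ℕ) (G : SimpleGraph V) : ℝ :=
  1 / (nu G : ℝ) * sSup ((fun t : Fin q → ℕ => (Lam t : ℝ) + 1) '' TT q G)

/-- 3-regular graphs. -/
def Cubic (G : SimpleGraph V) : Prop := ∀ v, (G.neighborSet v).ncard = 3

/-- The edges of `G` with exactly one end in `X`. -/
def cutS (G : SimpleGraph V) (X : Finset V) : Set (Sym2 V) :=
  {e | ∃ x y, x ∈ X ∧ y ∉ X ∧ G.Adj x y ∧ e = s(x, y)}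

/-- The edges of `G` with no end, or both ends, in `X`. -/
def uncutS (G : SimpleGraph V) (X : Finset V) : Set (Sym2 V) :=
  {e | ∃ x y, (x ∈ X ↔ y ∈ X) ∧ G.Adj x y ∧ e = s(x, y)}

/-- After the removal of the edges of `F`, no set `C` of at most `K` vertices spans `|C|` or more
edges. -/
def Acyc (G : SimpleGraph V) (F : Finset (Sym2 V)) (K : ℕ) : Prop :=
  ∀ (H : SimpleGraph V) (C : Finset V), H ≤ G → (∀ e ∈ F, e ∉ H.edgeSet) → C.Nonempty →
    C.card ≤ K → {e | e ∈ H.edgeSet ∧ ∀ x ∈ e, x ∈ C}.ncard + 1 ≤ C.card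

/-- The points: three at each of the `2k` vertices. -/
abbrev P (k : ℕ) : Type := Fin (2 * k) × Fin 3

/-- The positions: `3k` pairs of positions. -/
abbrev Q (k : ℕ) : Type := Fin (3 * k) × Bool

/-- The point which is paired with the point `p` in the configuration `τ`. -/
def mate {k : ℕ} (τ : Q k ≃ P k) (p : P k) : P k := τ ((τ.symm p).1, !(τ.symm p).2)

/-- The configuration gives a simple graph. -/
def Simple {k : ℕ} (τ : Q k ≃ P k) : Prop :=
  ∀ p p' : P k, p ≠ p' → p.1 = p'.1 → (mate τ p).1 ≠ (mate τ p').1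

/-- The graph of the configuration. -/
def Gr {k : ℕ} (τ : Q k ≃ P k) : SimpleGraph (Fin (2 * k)) :=
  SimpleGraph.fromRel (fun u v => ∃ p : P k, p.1 = u ∧ (mate τ p).1 = v)

/-- The number of pairs with exactly one point over `X`. -/
def cutT {k : ℕ} (τ : Q k ≃ P k) (X : Finset (Fin (2 * k))) : ℕ :=
  (univ.filter (fun i : Fin (3 * k) => ¬ ((τ (i, false)).1 ∈ X ↔ (τ (i, true)).1 ∈ X))).card

/-- The number of pairs with no point, or both points, over `X`. -/
def uncutT {k : ℕ} (τ : Q k ≃ P k) (X : Finset (Fin (2 * k))) : ℕ :=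
  (univ.filter (fun i : Fin (3 * k) => ((τ (i, false)).1 ∈ X ↔ (τ (i, true)).1 ∈ X))).card

end Defs

/-- DET. The deterministic part. Proof: let `c` be a colouring without a matching of `t` edges of
one colour, `R` the graph of the edges of colour `0`, `B` the graph of the edges of colour `1`,
`n = |V|`. Apply the Tutte–Berge theorem `tb` of the library module
`Pool.Graph.R_pool_sql_team_39128cda.Lib.helper26_.Berge` to `R` with `d = n - 2 t`: since there is
no matching of `t` edges there are `S_R` and a family `K_R` of disjoint sets, `R`-closed outside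
of `S_R` and disjoint from `S_R`, with `|S_R| + n - 2 t + 2 ≤ |K_R|`. At most `n / K` of them have
more than `K` elements. Let `C_R` be the members of `K_R` with at most `K` elements, `U_R` their
union and `X_R` the complement of `S_R ∪ U_R`. By `Acyc` for `H = R` minus `F` (for each
member of `C_R`, and as every edge of `R` inside `U_R` is inside one member)
`|C_R| + e_R(U_R) ≤ |U_R| + |F ∩ R|`. The same for `B`. There are no edges of `R` between `X_R` and
`U_R`. Let `S = S_R ∪ S_B`, and outside of `S` let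
`P1 = X_R ∩ U_B`, `P2 = U_R ∩ X_B`, `P3 = X_R ∩ X_B`, `P4 = U_R ∩ U_B`.
Then `|U_R| + |U_B| ≤ 2 |P4| + |P1| + |P2| + |S_R Δ S_B|`, and (adding the inequalities for `R` and
`B`, with `n = |S| + |P1| + |P2| + |P3| + |P4|`)
`|S| + |P3| + e(P4) + e(P1,P4) + e(P2,P4) ≤ |P4| + D`,
where `e` counts edges of `G`; every edge of `G` inside `P4` is an edge of `R` or `B` inside `U_R`
or `U_B`; the edges between `P1` and `P4` are in `B` and inside `U_B`; the edges between `P2` and
`P4` are in `R` and inside `U_R`; there are no edges of `G` between `P3` and `P4` or between `P1`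
and `P2`. Degrees: `3 |P4| = 2 e(P4) + e(P1,P4) + e(P2,P4) + e(S,P4)` and
`e(S,P4) ≤ 3 |S| - 2 e(S) - e(S, P1 ∪ P2 ∪ P3)`. Together:
`3 |P3| + e(P4) + 2 e(P1,P4) + 2 e(P2,P4) + 2 e(S) + e(S, P1 ∪ P2 ∪ P3) ≤ 3 D`.
Hence the cuts of `P1` and of `P2` have at most `3 D` edges, and `|P1| ≤ |X_R| ≤ 2 t + n / K`
because the members of `C_R` are nonempty and disjoint from `X_R ∪ S_R`. So `|P1|, |P2| ≤ A`, and
`X = P4` has at most `e(P4) + e(S) + 3 (|P1| + |P2| + |P3|) ≤ 3 D + 6 A` uncut edges, a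
contradiction. -/
def S_DET : Prop :=
  ∀ (V : Type) [Fintype V] [DecidableEq V] (G : SimpleGraph V) (F : Finset (Sym2 V))
    (K t D A : ℕ), Cubic G → Even (Fintype.card V) → 1 ≤ K → 2 * t ≤ Fintype.card V →
    4 * t + 2 * (Fintype.card V / K) + F.card ≤ Fintype.card V + 4 + D → Acyc G F K →
    (∀ X : Finset V, X.card ≤ 2 * t + Fintype.card V / K → (cutS G X).ncard ≤ 3 * D →
      X.card ≤ A) →
    (∀ X : Finset V, 3 * D + 6 * A < (uncutS G X).ncard) →
    Arrows G 2 (fun _ => t)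

/-- CYC. Few short cycles. Proof: by `t_SW` of `Pool.Graph.R_seed8.W991.RR.SW` and `pw` of
`Pool.Graph.R_seed8.W912.RR.Cnt` (note that `reg n 3 ∅` is the set of the cubic graphs) at most the
fraction `(6 / n) ^ l` of the cubic graphs contains `l` given edges, for `l ≤ K` and large `n`. So
the number of the pairs (a cubic graph, `l` different vertices `v_1, …, v_l` which form a cycle in
this order in the graph) is at most `6 ^ l` times the number of cubic graphs, for `3 ≤ l ≤ K`.
Let `F` be the set of the edges which are in cycles of length at most `K`; by Markov's inequality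
`|F| > L` for at most the fraction `C / L` of the cubic graphs. If `H` has no edges in `F` and
`|C| ≤ K` then the graph `H[C]` has no cycles, hence at most `|C| - 1` edges. -/
def S_CYC : Prop :=
  ∀ K : ℕ, ∃ C : ℝ, 0 < C ∧ ∃ n0 : ℕ, ∀ n, n0 ≤ n → ∀ L : ℕ, 1 ≤ L →
    ({G : SimpleGraph (Fin n) | Cubic G ∧
      ¬ ∃ F : Finset (Sym2 (Fin n)), F.card ≤ L ∧ Acyc G F K}.ncard : ℝ) ≤
      C / L * ({G : SimpleGraph (Fin n) | Cubic G}.ncard : ℝ)

/-- FIB. All cubic graphs come from the same number of configurations. Proof: (1) for a given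
fixed point free involution `σ` of the points the number of `τ` with `mate τ = σ` is positive and
does not depend on `σ` (two such involutions are conjugate; or: choose one `τ₀` with
`mate τ₀ = σ`, then the others are `τ₀ ∘ ψ` with `ψ` commuting with the flip
`(i, b) ↦ (i, !b)` of `Q k`). (2) For a cubic graph `G` the fixed point free involutions `σ` of the
points which are simple (`p ≠ p'`, `p.1 = p'.1` imply `(σ p).1 ≠ (σ p').1`) and have the graph `G`
correspond to the families of bijections `f_v : Fin 3 ≃ N_G(v)`, `σ (v, i) = (w, f_w⁻¹ v)` with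
`w = f_v i`; there are `6 ^ (2 k)` of them. -/
def S_FIB : Prop :=
  ∀ k : ℕ, ∃ c : ℕ, 0 < c ∧ ∀ G : SimpleGraph (Fin (2 * k)), Cubic G →
    {τ : Q k ≃ P k | Simple τ ∧ Gr τ = G}.ncard = c

/-- GR. The graph of a simple configuration is cubic, with the right numbers of cut and uncut
edges: `i ↦ s((τ (i, false)).1, (τ (i, true)).1)` is a bijection from `Fin (3 k)` to the edges. -/
def S_GR : Prop :=
  ∀ (k : ℕ) (τ : Q k ≃ P k), Simple τ → Cubic (Gr τ) ∧ ∀ X : Finset (Fin (2 * k)),
    (cutS (Gr τ) X).ncard = cutT τ X ∧ (uncutS (Gr τ) X).ncard = uncutT τ X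

/-- SIMP. A configuration is simple with at least inverse polynomial probability. Proof: let
`bad τ` be the number of the ordered pairs `p ≠ p'`, `p.1 = p'.1`, `(mate τ p).1 = (mate τ p').1`.
(1) The mean value of `bad` is at most a constant `c1` (it tends to `6`): sum over the pairs of
different positions `q, q'` the numbers of `τ` with `(τ q).1 = (τ q').1` and
`(τ (fl q)).1 = (τ (fl q')).1`, `fl (i, b) = (i, !b)`. So `bad τ ≤ 2 c1` for at least half of the
`τ`. (2) If `1 ≤ bad τ ≤ 2 c1` and `k` is large there is a transposition `s` of two points with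
`bad (τ.trans s) < bad τ` (take a bad pair `p, p'`; replace the pairs `{p, mate p}`,
`{r, mate r}` by `{p, mate r}`, `{r, mate p}`, where the vertices of `r` and `mate r` are far away
from everything bad and from `p`, `mate p` and their neighbours). So
`#{bad ≤ j} ≤ (1 + (6k)^2) #{bad ≤ j - 1}` for `1 ≤ j ≤ 2 c1`. -/
def S_SIMP : Prop :=
  ∃ C k0 : ℕ, ∀ k, k0 ≤ k →
    (6 * k).factorial ≤ k ^ C * {τ : Q k ≃ P k | Simple τ}.ncard

/-- SUB. The preimage of a given set of `a` points under a random bijection is a random set of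
`a` positions. -/
def S_SUB : Prop :=
  ∀ (Q P : Type) [Fintype Q] [DecidableEq Q] [Fintype P] [DecidableEq P] (N a : ℕ),
    Fintype.card Q = N → Fintype.card P = N → ∀ B : Finset P, B.card = a →
    ∀ 𝒜 : Finset (Finset Q), (∀ A ∈ 𝒜, A.card = a) →
    {τ : Q ≃ P | B.map τ.symm.toEmbedding ∈ 𝒜}.ncard * N.choose a = 𝒜.card * N.factorial

/-- EXP. Expansion. Proof (`m = 3 k`): by `S_SUB` the number of the `τ` for which a given set `X`
of `x` vertices has `cutT τ X = i` is `N / C(2 m, 3 x)` times `(6 k)!`, where `N` is the number of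
the sets `A` of `3 x` positions with exactly `i` split pairs, so
`N = C(m, i) 2 ^ i C(m - i, (3 x - i) / 2)` (and `i ≡ x mod 2` if `N > 0`). Let
`y = (3 x - i) / 2`. By Vandermonde `C(2 m, 3 x) ≥ C(m, y) C(m, 3 x - y)` and
`C(3 k, (3 x + i) / 2) ≥ C(2 k, x) C(k, (x + i) / 2)`. So the union bound over all sets `X` of
`x` vertices gives at most `C(m, i) 2 ^ i / C(k, (x + i) / 2)`, where
`k / 140 ≤ (x + i) / 2 ≤ (1 / 2 + δ) k ≤ 3 k / 5`, so that
`C(k, z) ≥ (k / z) ^ z ≥ (5 / 3) ^ (k / 140)` for `z = (x + i) / 2`, and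
`C(3 k, i) ≤ (1 + u) ^ (3 k) / u ^ i` with `u = 1 / 2000`; `δ = 1 / 10000` works. -/
def S_EXP : Prop :=
  ∃ δ : ℝ, 0 < δ ∧ δ ≤ 1 / 100 ∧ ∃ r : ℝ, 0 < r ∧ r < 1 ∧ ∃ k0 : ℕ, ∀ k, k0 ≤ k →
    ({τ : Q k ≃ P k | ∃ X : Finset (Fin (2 * k)), k ≤ 70 * X.card ∧
      (X.card : ℝ) ≤ (1 + δ) * k ∧ (cutT τ X : ℝ) ≤ δ * k}.ncard : ℝ) ≤
      r ^ k * ((6 * k).factorial : ℝ)

/-- BIP. Far from bipartite. Proof (`m = 3 k`): let `j ≤ k / 10`. For a given set `X` of `x`
vertices the number of `τ` with `uncutT τ X ≤ j` is at most `N / C(2 m, 3 x)` times `(6 k)!`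
(`S_SUB`), where `N` is the number of the sets `A` of `3 x` positions with at most `j` pairs which
are not split; `N ≤ 2 ^ m ∑_{i ≤ j} C(m, i)` and `N > 0` only for `|3 x - m| ≤ j`; for such `x`
`C(2 m, 3 x) ≥ C(2 m, m) / 2 ^ j ≥ 4 ^ m / (2 m 2 ^ j)`. The union bound over the `2 ^ (2 k)` sets
`X` gives `2 ^ (2 k) 2 ^ m 2 m 2 ^ j 4 ^ (- m) ∑_{i ≤ j} C(m, i)`, and
`C(3 k, i) ≤ (1 + u) ^ (3 k) / u ^ i` with `u = 1 / 30`:
`- log 2 + (log 2) / 10 + 3 / 30 + (log 30) / 10 < 0`. -/
def S_BIP : Prop :=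
  ∃ r : ℝ, 0 < r ∧ r < 1 ∧ ∃ k0 : ℕ, ∀ k, k0 ≤ k →
    ({τ : Q k ≃ P k | ∃ X : Finset (Fin (2 * k)), 10 * uncutT τ X ≤ k}.ncard : ℝ) ≤
      r ^ k * ((6 * k).factorial : ℝ)

end Pool.Agent.H41.CL
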