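import Pool.Agent.H41.CL.Defs

set_option autoImplicit false

/-! Finer statements for some of the `S_*` of `Pool.Agent.H41.CL.Defs`. -/

namespace Pool.Agent.H41.CL

open Finset

/-- The number of bad ordered pairs of points. -/
def bad {k : ℕ} (τ : Q k ≃ P k) : ℕ :=
  (univ.filter (fun x : P k × P k => x.1 ≠ x.2 ∧ x.1.1 = x.2.1 ∧
    (mate τ x.1).1 = (mate τ x.2).1)).card

/-- MEAN. Proof: `∑ τ, bad τ` is the sum over the ordered pairs of different positions `q, q'` of
the numbers of `τ` with `(τ q).1 = (τ q').1` and `(τ (fl q)).1 = (τ (fl q')).1`, where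
`fl (i, b) = (i, !b)`. If `q' = fl q` (`6 k` pairs) there are at most `6 k * 2 * (6 k - 2)!` such
`τ`, if `q' ≠ fl q` (at most `(6 k) ^ 2` pairs) there are at most `(6 k * 2) ^ 2 * (6 k - 4)!`
(the values at four different positions, then the rest; the number of the `τ : Q k ≃ P k` with
given values at `j` given positions is `(6 k - j)!`). -/
def S_MEAN : Prop :=
  ∃ c1 k0 : ℕ, ∀ k, k0 ≤ k → ∑ τ : Q k ≃ P k, bad τ ≤ c1 * (6 * k).factorial

/-- SWI. Proof: let `(p, p')` be a bad pair, `u = p.1`, and let `W` be the set of the vertices `u`,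
`(mate τ p).1`, the vertices of the mates of the points over these two, and all the vertices `x.1`,
`(mate τ x).1` for the points `x` of the bad pairs; `|W|` is bounded in terms of `C0`. For large `k`
there is a point `r` such that the vertex of `r`, the vertex of `mate τ r` and the vertices of the
mates of the points over these two are not in `W`. Let
`s = swap (mate τ p) (mate τ r)`; the mates for `τ.trans s` are the old ones, except
that `p, mate τ r` and `r, mate τ p` are now paired. No new bad pair arises, and `(p, p')` is not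
bad any more. (If `mate τ p = p'`, `p.1 = p'.1`, this is a loop; the same switching works.) -/
def S_SWI : Prop :=
  ∀ C0 : ℕ, ∃ k0 : ℕ, ∀ k, k0 ≤ k → ∀ τ : Q k ≃ P k, 1 ≤ bad τ → bad τ ≤ C0 →
    ∃ a b : P k, bad (τ.trans (Equiv.swap a b)) < bad τ

/-- CONJ. Every fixed point free involution of the points is `mate τ` for the same number of
`τ`. -/
def S_CONJ : Prop :=
  ∀ k : ℕ, ∃ c : ℕ, 0 < c ∧ ∀ σ : P k → P k, (∀ p, σ (σ p) = p) → (∀ p, σ p ≠ p) →
    {τ : Q k ≃ P k | ∀ p, mate τ p = σ p}.ncard = c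

/-- INV. The simple fixed point free involutions with a given cubic graph: they correspond to the
families of bijections `f_v : Fin 3 ≃ N_G(v)`. -/
def S_INV : Prop :=
  ∀ k : ℕ, ∀ G : SimpleGraph (Fin (2 * k)), Cubic G →
    {σ : P k → P k | (∀ p, σ (σ p) = p) ∧ (∀ p, σ p ≠ p) ∧
      (∀ p p' : P k, p ≠ p' → p.1 = p'.1 → (σ p).1 ≠ (σ p').1) ∧
      ∀ u v, G.Adj u v ↔ ∃ p : P k, p.1 = u ∧ (σ p).1 = v}.ncard = 6 ^ (2 * k)

/-- TB. Proof: apply the Tutte–Berge theorem `tb` of the library module
`Pool.Graph.R_pool_sql_team_39128cda.Lib.helper26_.Berge` to `R` with `d = |V| - 2 t`. The first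
alternative gives a matching of at least `t` edges (the pairs `{v, f v}`, `f v ≠ v`), hence one of
exactly `t` edges. The second gives `S` and a family `𝒦` of disjoint odd sets. At most
`|V| / K` of them have more than `K` elements; let `𝒞` be the others, `U` their union,
`N = |𝒞|`. For `C ∈ 𝒞` apply `Acyc` to `H = R` minus the edges of `F`; every edge of `R` inside
`U` is inside one `C ∈ 𝒞`. -/
def S_TB : Prop :=
  ∀ (V : Type) [Fintype V] [DecidableEq V] (R : SimpleGraph V) (F : Finset (Sym2 V))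
    (K t : ℕ), Even (Fintype.card V) → 1 ≤ K → 2 * t ≤ Fintype.card V → Acyc R F K →
    (¬ ∃ M : Finset (Sym2 V), (∀ e ∈ M, e ∈ R.edgeSet) ∧ IsMat M ∧ M.card = t) →
    ∃ (S U : Finset V) (N : ℕ), Disjoint S U ∧
      S.card + Fintype.card V + 2 ≤ N + 2 * t + Fintype.card V / K ∧ N ≤ U.card ∧
      N + {e | e ∈ R.edgeSet ∧ ∀ x ∈ e, x ∈ U}.ncard ≤
        U.card + {e | e ∈ R.edgeSet ∧ e ∈ F}.ncard ∧
      ∀ x ∈ U, ∀ y, R.Adj x y → y ∈ U ∨ y ∈ S

end Pool.Agent.H41.CL
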