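import Pool.Agent.H41.CL.Defs2

set_option autoImplicit false

/-! `S_TB → S_DET`. -/

namespace Pool.Agent.H41.CL

open Finset

section d

open Classical in
/-- The number of the pairs `(x, y)`, `x ∈ X`, `y ∈ Y`, which are adjacent. -/
noncomputable def dd {V : Type} [Fintype V] (H : SimpleGraph V) (X Y : Finset V) : ℕ :=
  ∑ x ∈ X, ∑ y ∈ Y, if H.Adj x y then 1 else 0

variable {V : Type} [Fintype V] [DecidableEq V]

theorem dd_union_right (H : SimpleGraph V) (X Y Z : Finset V) (h : Disjoint Y Z) :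
    dd H X (Y ∪ Z) = dd H X Y + dd H X Z := by
  unfold dd
  rw [← Finset.sum_add_distrib]
  apply Finset.sum_congr rfl
  intro x _
  rw [Finset.sum_union h]

theorem dd_union_left (H : SimpleGraph V) (X Y Z : Finset V) (h : Disjoint X Y) :
    dd H (X ∪ Y) Z = dd H X Z + dd H Y Z := by
  unfold dd
  rw [Finset.sum_union h]

theorem dd_comm (H : SimpleGraph V) (X Y : Finset V) : dd H X Y = dd H Y X := by
  unfold dd
  rw [Finset.sum_comm]
  apply Finset.sum_congr rfl
  intro x _
  apply Finset.sum_congr rfl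
  intro y _
  by_cases h : H.Adj x y
  · rw [if_pos h, if_pos h.symm]
  · rw [if_neg h, if_neg (fun h' => h h'.symm)]

theorem dd_mono (H : SimpleGraph V) {X X' Y Y' : Finset V} (h : X ⊆ X') (h' : Y ⊆ Y') :
    dd H X Y ≤ dd H X' Y' := by
  classical
  unfold dd
  calc ∑ x ∈ X, ∑ y ∈ Y, (if H.Adj x y then 1 else 0)
      ≤ ∑ x ∈ X, ∑ y ∈ Y', (if H.Adj x y then 1 else 0) := by
        apply Finset.sum_le_sum
        intro x _
        exact Finset.sum_le_sum_of_subset h'
    _ ≤ _ := Finset.sum_le_sum_of_subset h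

theorem dd_le (H H' : SimpleGraph V) {X Y : Finset V}
    (h : ∀ x ∈ X, ∀ y ∈ Y, H.Adj x y → H'.Adj x y) : dd H X Y ≤ dd H' X Y := by
  unfold dd
  apply Finset.sum_le_sum
  intro x hx
  apply Finset.sum_le_sum
  intro y hy
  by_cases h1 : H.Adj x y
  · simp [h1, h x hx y hy h1]
  · simp [h1]

theorem dd_le_add (H H' H'' : SimpleGraph V) {X Y : Finset V}
    (h : ∀ x ∈ X, ∀ y ∈ Y, H.Adj x y → H'.Adj x y ∨ H''.Adj x y) :
    dd H X Y ≤ dd H' X Y + dd H'' X Y := by
  unfold dd
  rw [← Finset.sum_add_distrib]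
  apply Finset.sum_le_sum
  intro x hx
  rw [← Finset.sum_add_distrib]
  apply Finset.sum_le_sum
  intro y hy
  by_cases h1 : H.Adj x y
  · rcases h x hx y hy h1 with h2 | h2
    · simp [h1, h2]
    · simp [h1, h2]
  · simp [h1]

theorem dd_zero (H : SimpleGraph V) {X Y : Finset V}
    (h : ∀ x ∈ X, ∀ y ∈ Y, ¬ H.Adj x y) : dd H X Y = 0 := by
  unfold dd
  apply Finset.sum_eq_zero
  intro x hx
  apply Finset.sum_eq_zero
  intro y hy
  rw [if_neg (h x hx y hy)]

theorem dd_univ (G : SimpleGraph V) (hG : Cubic G) (X : Finset V) :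
    dd G X univ = 3 * X.card := by
  classical
  unfold dd
  rw [Finset.sum_congr rfl (g := fun _ => 3), Finset.sum_const, smul_eq_mul, mul_comm]
  intro x _
  rw [← hG x, Set.ncard_eq_toFinset_card', Finset.card_eq_sum_ones, ← Finset.sum_filter]
  apply Finset.sum_congr _ (fun _ _ => rfl)
  ext y
  simp

theorem dd_card (H : SimpleGraph V) (X Y : Finset V) :
    dd H X Y = {p : V × V | p.1 ∈ X ∧ p.2 ∈ Y ∧ H.Adj p.1 p.2}.ncard := by
  classical
  rw [Set.ncard_eq_toFinset_card']
  have : (Set.toFinset {p : V × V | p.1 ∈ X ∧ p.2 ∈ Y ∧ H.Adj p.1 p.2}) =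
      (X ×ˢ Y).filter (fun p => H.Adj p.1 p.2) := by
    ext p
    simp [and_assoc]
  rw [this, Finset.card_filter, Finset.sum_product]
  unfold dd
  rfl

/-- Edges inside of `U`, twice. -/
theorem edges_darts (H : SimpleGraph V) (U : Finset V) :
    2 * {e | e ∈ H.edgeSet ∧ ∀ x ∈ e, x ∈ U}.ncard = dd H U U := by
  classical
  -- the subgraph
  let H' : SimpleGraph V := {
    Adj := fun x y => H.Adj x y ∧ x ∈ U ∧ y ∈ U
    symm := ⟨fun x y h => ⟨h.1.symm, h.2.2, h.2.1⟩⟩
    loopless := ⟨fun x h => H.loopless.irrefl x h.1⟩ }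
  have h1 : {e | e ∈ H.edgeSet ∧ ∀ x ∈ e, x ∈ U} = H'.edgeSet := by
    ext e
    induction e using Sym2.ind with
    | _ x y =>
      simp [H']
  have h2 := H'.sum_degrees_eq_twice_card_edges
  rw [h1, Set.ncard_eq_toFinset_card']
  have h3 : H'.edgeSet.toFinset = H'.edgeFinset := rfl
  rw [h3, ← h2]
  unfold dd
  rw [← Finset.sum_subset (Finset.subset_univ U)]
  · apply Finset.sum_congr rfl
    intro x hx
    rw [← SimpleGraph.card_neighborFinset_eq_degree, Finset.card_eq_sum_ones, ← Finset.sum_filter]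
    apply Finset.sum_congr _ (fun _ _ => rfl)
    ext y
    simp [H', hx, and_comm]
  · intro x _ hx
    rw [← SimpleGraph.card_neighborFinset_eq_degree, Finset.card_eq_zero]
    ext y
    simp [H', hx]

theorem cutS_le (G : SimpleGraph V) (X Y : Finset V) (hXY : ∀ y, y ∉ X → y ∈ Y) :
    (cutS G X).ncard ≤ dd G X Y := by
  classical
  rw [dd_card]
  have h : cutS G X ⊆ (fun p : V × V => s(p.1, p.2)) ''
      {p : V × V | p.1 ∈ X ∧ p.2 ∈ Y ∧ G.Adj p.1 p.2} := by
    rintro e ⟨x, y, hx, hy, h, rfl⟩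
    exact ⟨(x, y), ⟨hx, hXY y hy, h⟩, rfl⟩
  exact (Set.ncard_le_ncard h (Set.toFinite _)).trans (Set.ncard_image_le (Set.toFinite _))

theorem uncutS_le (G : SimpleGraph V) (X S Z : Finset V)
    (hXY : ∀ y, y ∉ X → y ∈ S ∨ y ∈ Z) :
    2 * (uncutS G X).ncard ≤ dd G X X + dd G S S + 2 * dd G Z univ := by
  classical
  have h : uncutS G X ⊆ {e | e ∈ G.edgeSet ∧ ∀ x ∈ e, x ∈ X} ∪
      ({e | e ∈ G.edgeSet ∧ ∀ x ∈ e, x ∈ S} ∪ (fun p : V × V => s(p.1, p.2)) ''
      {p : V × V | p.1 ∈ Z ∧ p.2 ∈ univ ∧ G.Adj p.1 p.2}) := by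
    rintro e ⟨x, y, hxy, h, rfl⟩
    by_cases hx : x ∈ X
    · left
      refine ⟨h, ?_⟩
      intro z hz
      rw [Sym2.mem_iff] at hz
      rcases hz with rfl | rfl
      · exact hx
      · exact hxy.1 hx
    · right
      have hy : y ∉ X := fun h' => hx (hxy.2 h')
      rcases hXY x hx with h1 | h1
      · rcases hXY y hy with h2 | h2
        · left
          refine ⟨h, ?_⟩
          intro z hz
          rw [Sym2.mem_iff] at hz
          rcases hz with rfl | rfl
          · exact h1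
          · exact h2
        · right
          exact ⟨(y, x), ⟨h2, Finset.mem_univ _, h.symm⟩, Sym2.eq_swap⟩
      · right
        exact ⟨(x, y), ⟨h1, Finset.mem_univ _, h⟩, rfl⟩
  have h1 := Set.ncard_le_ncard h (Set.toFinite _)
  have h2 := Set.ncard_union_le {e | e ∈ G.edgeSet ∧ ∀ x ∈ e, x ∈ X}
      ({e | e ∈ G.edgeSet ∧ ∀ x ∈ e, x ∈ S} ∪ (fun p : V × V => s(p.1, p.2)) ''
      {p : V × V | p.1 ∈ Z ∧ p.2 ∈ univ ∧ G.Adj p.1 p.2})
  have h3 := Set.ncard_union_le {e | e ∈ G.edgeSet ∧ ∀ x ∈ e, x ∈ S}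
      ((fun p : V × V => s(p.1, p.2)) '' {p : V × V | p.1 ∈ Z ∧ p.2 ∈ univ ∧ G.Adj p.1 p.2})
  have h4 : ((fun p : V × V => s(p.1, p.2)) ''
      {p : V × V | p.1 ∈ Z ∧ p.2 ∈ univ ∧ G.Adj p.1 p.2}).ncard ≤ dd G Z univ := by
    rw [dd_card]
    exact Set.ncard_image_le (Set.toFinite _)
  have h5 := edges_darts G X
  have h6 := edges_darts G S
  omega

end d

theorem t_DET (hTB : S_TB) : S_DET := by
  intro V _ _ G F K t D A hG hn hK ht hD hA hcut huncut c
  classical
  by_contra hcon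
  push Not at hcon
  -- the two colours
  let R : SimpleGraph V := {
    Adj := fun x y => G.Adj x y ∧ c s(x, y) = 0
    symm := ⟨fun x y h => ⟨h.1.symm, by rw [Sym2.eq_swap]; exact h.2⟩⟩
    loopless := ⟨fun x h => G.loopless.irrefl x h.1⟩ }
  let B : SimpleGraph V := {
    Adj := fun x y => G.Adj x y ∧ c s(x, y) = 1
    symm := ⟨fun x y h => ⟨h.1.symm, by rw [Sym2.eq_swap]; exact h.2⟩⟩
    loopless := ⟨fun x h => G.loopless.irrefl x h.1⟩ }
  have hRG : R ≤ G := fun x y h => h.1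
  have hBG : B ≤ G := fun x y h => h.1
  have hRB : ∀ x y, G.Adj x y → R.Adj x y ∨ B.Adj x y := by
    intro x y h
    have : c s(x, y) = 0 ∨ c s(x, y) = 1 := by
      generalize c s(x, y) = z
      fin_cases z <;> simp
    rcases this with h1 | h1
    · exact Or.inl ⟨h, h1⟩
    · exact Or.inr ⟨h, h1⟩
  have hRe : ∀ e, e ∈ R.edgeSet ↔ e ∈ G.edgeSet ∧ c e = 0 := by
    intro e
    induction e using Sym2.ind with
    | _ x y => rfl
  have hBe : ∀ e, e ∈ B.edgeSet ↔ e ∈ G.edgeSet ∧ c e = 1 := by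
    intro e
    induction e using Sym2.ind with
    | _ x y => rfl
  have hAR : Acyc R F K := fun H C h1 => hA H C (h1.trans hRG)
  have hAB : Acyc B F K := fun H C h1 => hA H C (h1.trans hBG)
  obtain ⟨S1, U1, N1, d1, a1, b1, c1, e1⟩ := hTB V R F K t hn hK ht hAR (by
    rintro ⟨M, m1, m2, m3⟩
    exact hcon 0 M (fun e he => (hRe e).1 (m1 e he)) m2 m3)
  obtain ⟨S2, U2, N2, d2, a2, b2, c2, e2⟩ := hTB V B F K t hn hK ht hAB (by
    rintro ⟨M, m1, m2, m3⟩
    exact hcon 1 M (fun e he => (hBe e).1 (m1 e he)) m2 m3)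
  -- F
  have hF : {e | e ∈ R.edgeSet ∧ e ∈ F}.ncard + {e | e ∈ B.edgeSet ∧ e ∈ F}.ncard ≤ F.card := by
    rw [← Set.ncard_union_eq _ (Set.toFinite _) (Set.toFinite _), ← Set.ncard_coe_finset]
    · apply Set.ncard_le_ncard _ (Set.toFinite _)
      rintro e (h | h)
      · exact h.2
      · exact h.2
    · rw [Set.disjoint_left]
      intro e h h'
      have h1 := ((hRe e).1 h.1).2
      have h2 := ((hBe e).1 h'.1).2
      rw [h1] at h2
      exact absurd h2 (by decide)
  -- the parts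
  obtain ⟨S, mS⟩ : ∃ S : Finset V, ∀ v, v ∈ S ↔ v ∈ S1 ∨ v ∈ S2 := ⟨S1 ∪ S2, by simp⟩
  obtain ⟨P1, m1⟩ : ∃ P : Finset V, ∀ v, v ∈ P ↔ v ∉ S1 ∧ v ∉ U1 ∧ v ∈ U2 :=
    ⟨univ.filter (fun v => v ∉ S1 ∧ v ∉ U1 ∧ v ∈ U2), by simp⟩
  obtain ⟨P2, m2⟩ : ∃ P : Finset V, ∀ v, v ∈ P ↔ v ∈ U1 ∧ v ∉ S2 ∧ v ∉ U2 :=
    ⟨univ.filter (fun v => v ∈ U1 ∧ v ∉ S2 ∧ v ∉ U2), by simp⟩
  obtain ⟨P3, m3⟩ : ∃ P : Finset V, ∀ v, v ∈ P ↔ v ∉ S1 ∧ v ∉ U1 ∧ v ∉ S2 ∧ v ∉ U2 :=
    ⟨univ.filter (fun v => v ∉ S1 ∧ v ∉ U1 ∧ v ∉ S2 ∧ v ∉ U2), by simp⟩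
  obtain ⟨P4, m4⟩ : ∃ P : Finset V, ∀ v, v ∈ P ↔ v ∈ U1 ∧ v ∈ U2 :=
    ⟨univ.filter (fun v => v ∈ U1 ∧ v ∈ U2), by simp⟩
  have d1' : ∀ v, v ∈ U1 → v ∉ S1 := fun v h h' => (Finset.disjoint_left.1 d1) h' h
  have d2' : ∀ v, v ∈ U2 → v ∉ S2 := fun v h h' => (Finset.disjoint_left.1 d2) h' h
  have huniv : (univ : Finset V) = S ∪ (P1 ∪ (P2 ∪ (P3 ∪ P4))) := by
    ext v
    simp only [Finset.mem_univ, Finset.mem_union, true_iff]
    rw [mS, m1, m2, m3, m4]
    have := d1' v
    have := d2' v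
    tauto
  have D34 : Disjoint P3 P4 := by
    rw [Finset.disjoint_left]; intro v h h'; rw [m3] at h; rw [m4] at h'; tauto
  have D24 : Disjoint P2 P4 := by
    rw [Finset.disjoint_left]; intro v h h'; rw [m2] at h; rw [m4] at h'; tauto
  have D14 : Disjoint P1 P4 := by
    rw [Finset.disjoint_left]; intro v h h'; rw [m1] at h; rw [m4] at h'; tauto
  have D2 : Disjoint P2 (P3 ∪ P4) := by
    rw [Finset.disjoint_left]; intro v h h'; rw [Finset.mem_union, m3, m4] at h'
    rw [m2] at h; tauto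
  have D1 : Disjoint P1 (P2 ∪ (P3 ∪ P4)) := by
    rw [Finset.disjoint_left]; intro v h h'
    rw [Finset.mem_union, Finset.mem_union, m2, m3, m4] at h'
    rw [m1] at h; tauto
  have DS : Disjoint S (P1 ∪ (P2 ∪ (P3 ∪ P4))) := by
    rw [Finset.disjoint_left]; intro v h h'
    rw [Finset.mem_union, Finset.mem_union, Finset.mem_union, m1, m2, m3, m4] at h'
    rw [mS] at h
    have := d1' v
    have := d2' v
    tauto
  have hsplit : ∀ (H : SimpleGraph V) (X : Finset V), dd H X univ =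
      dd H X S + (dd H X P1 + (dd H X P2 + (dd H X P3 + dd H X P4))) := by
    intro H X
    rw [huniv, dd_union_right _ _ _ _ DS, dd_union_right _ _ _ _ D1, dd_union_right _ _ _ _ D2,
      dd_union_right _ _ _ _ D34]
  have hcardV : Fintype.card V = S.card + (P1.card + (P2.card + (P3.card + P4.card))) := by
    rw [← Finset.card_univ, huniv, Finset.card_union_of_disjoint DS,
      Finset.card_union_of_disjoint D1, Finset.card_union_of_disjoint D2,
      Finset.card_union_of_disjoint D34]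
  have hU1 : U1.card ≤ P4.card + P2.card + S2.card := by
    have : U1 ⊆ (P4 ∪ P2) ∪ S2 := by
      intro v hv
      rw [Finset.mem_union, Finset.mem_union, m4, m2]
      tauto
    exact (Finset.card_le_card this).trans ((Finset.card_union_le _ _).trans
      (Nat.add_le_add_right (Finset.card_union_le _ _) _))
  have hU2 : U2.card ≤ P4.card + P1.card + S1.card := by
    have : U2 ⊆ (P4 ∪ P1) ∪ S1 := by
      intro v hv
      rw [Finset.mem_union, Finset.mem_union, m4, m1]
      tauto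
    exact (Finset.card_le_card this).trans ((Finset.card_union_le _ _).trans
      (Nat.add_le_add_right (Finset.card_union_le _ _) _))
  -- adjacency facts
  have noR : ∀ x y, R.Adj x y → x ∈ U1 → y ∉ S1 → y ∈ U1 := by
    intro x y h hx hy
    rcases e1 x hx y h with h1 | h1
    · exact h1
    · exact absurd h1 hy
  have noB : ∀ x y, B.Adj x y → x ∈ U2 → y ∉ S2 → y ∈ U2 := by
    intro x y h hx hy
    rcases e2 x hx y h with h1 | h1
    · exact h1
    · exact absurd h1 hy
  have z43 : dd G P4 P3 = 0 := by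
    apply dd_zero
    intro x hx y hy h
    rw [m4] at hx
    rw [m3] at hy
    rcases hRB x y h with h1 | h1
    · have := noR x y h1 hx.1 hy.1
      tauto
    · have := noB x y h1 hx.2 hy.2.2.1
      tauto
  have z12 : dd G P1 P2 = 0 := by
    apply dd_zero
    intro x hx y hy h
    rw [m1] at hx
    rw [m2] at hy
    rcases hRB x y h with h1 | h1
    · have := noR y x h1.symm hy.1 hx.1
      tauto
    · have := noB x y h1 hx.2.2 hy.2.1
      tauto
  have s24 : dd G P2 P4 ≤ dd R P2 P4 := by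
    apply dd_le
    intro x hx y hy h
    rw [m2] at hx
    rw [m4] at hy
    rcases hRB x y h with h1 | h1
    · exact h1
    · have := noB y x h1.symm hy.2 hx.2.1
      tauto
  have s14 : dd G P1 P4 ≤ dd B P1 P4 := by
    apply dd_le
    intro x hx y hy h
    rw [m1] at hx
    rw [m4] at hy
    rcases hRB x y h with h1 | h1
    · have := noR y x h1.symm hy.1 hx.1
      tauto
    · exact h1
  have s44 : dd G P4 P4 ≤ dd R P4 P4 + dd B P4 P4 :=
    dd_le_add _ _ _ (fun x _ y _ h => hRB x y h)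
  have uR : dd R P4 P4 + 2 * dd R P2 P4 ≤ dd R U1 U1 := by
    have h1 : dd R (P2 ∪ P4) (P2 ∪ P4) ≤ dd R U1 U1 := by
      have : P2 ∪ P4 ⊆ U1 := by
        intro v hv
        rw [Finset.mem_union, m2, m4] at hv
        tauto
      exact dd_mono R this this
    rw [dd_union_left _ _ _ _ D24, dd_union_right _ _ _ _ D24, dd_union_right _ _ _ _ D24] at h1
    have h2 := dd_comm R P2 P4
    omega
  have uB : dd B P4 P4 + 2 * dd B P1 P4 ≤ dd B U2 U2 := by
    have h1 : dd B (P1 ∪ P4) (P1 ∪ P4) ≤ dd B U2 U2 := by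
      have : P1 ∪ P4 ⊆ U2 := by
        intro v hv
        rw [Finset.mem_union, m1, m4] at hv
        tauto
      exact dd_mono B this this
    rw [dd_union_left _ _ _ _ D14, dd_union_right _ _ _ _ D14, dd_union_right _ _ _ _ D14] at h1
    have h2 := dd_comm B P1 P4
    omega
  have gR := edges_darts R U1
  have gB := edges_darts B U2
  have k4 := dd_univ G hG P4
  rw [hsplit] at k4
  have kS := dd_univ G hG S
  rw [hsplit] at kS
  have k3 := dd_univ G hG P3
  rw [hsplit] at k3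
  have q1 := dd_comm G P4 S
  have q2 := dd_comm G P4 P1
  have q3 := dd_comm G P4 P2
  have q4 := dd_comm G P3 P1
  have q5 := dd_comm G P3 P2
  have q6 := dd_comm G S P1
  have q7 := dd_comm G S P2
  have q8 := dd_comm G P2 P1
  -- the main inequality
  have main : 2 * dd G S S + 2 * (dd G S P1 + dd G S P2 + dd G S P3) + 6 * P3.card +
      dd G P4 P4 + 4 * dd G P1 P4 + 4 * dd G P2 P4 ≤ 6 * D := by
    linarith
  -- the cuts
  have cut1 : (cutS G P1).ncard ≤ 3 * D := by
    have h1 := cutS_le G P1 (S ∪ (P2 ∪ (P3 ∪ P4))) (by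
      intro y hy
      have : y ∈ (univ : Finset V) := Finset.mem_univ y
      rw [huniv] at this
      simp only [Finset.mem_union] at this ⊢
      tauto)
    rw [dd_union_right, dd_union_right _ _ _ _ D2, dd_union_right _ _ _ _ D34] at h1
    · linarith
    · apply Disjoint.mono_right _ DS
      exact Finset.subset_union_right
  have cut2 : (cutS G P2).ncard ≤ 3 * D := by
    have h1 := cutS_le G P2 (S ∪ (P1 ∪ (P3 ∪ P4))) (by
      intro y hy
      have : y ∈ (univ : Finset V) := Finset.mem_univ y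
      rw [huniv] at this
      simp only [Finset.mem_union] at this ⊢
      tauto)
    rw [dd_union_right, dd_union_right, dd_union_right _ _ _ _ D34] at h1
    · linarith
    · apply Disjoint.mono_right _ D1
      exact Finset.subset_union_right
    · apply Disjoint.mono_right _ DS
      apply Finset.union_subset_union_right
      exact Finset.subset_union_right
  have hX1 : P1.card + U1.card + S1.card ≤ Fintype.card V := by
    rw [← Finset.card_union_of_disjoint, ← Finset.card_union_of_disjoint]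
    · exact Finset.card_le_univ _
    · rw [Finset.disjoint_left]
      intro v hv hv'
      rw [Finset.mem_union, m1] at hv
      have := d1' v
      tauto
    · rw [Finset.disjoint_left]
      intro v hv hv'
      rw [m1] at hv
      tauto
  have hX2 : P2.card + U2.card + S2.card ≤ Fintype.card V := by
    rw [← Finset.card_union_of_disjoint, ← Finset.card_union_of_disjoint]
    · exact Finset.card_le_univ _
    · rw [Finset.disjoint_left]
      intro v hv hv'
      rw [Finset.mem_union, m2] at hv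
      have := d2' v
      tauto
    · rw [Finset.disjoint_left]
      intro v hv hv'
      rw [m2] at hv
      tauto
  have hA1 : P1.card ≤ A := hcut P1 (by linarith) cut1
  have hA2 : P2.card ≤ A := hcut P2 (by linarith) cut2
  -- the uncut edges
  have hu := uncutS_le G P4 S (P1 ∪ (P2 ∪ P3)) (by
    intro y hy
    have : y ∈ (univ : Finset V) := Finset.mem_univ y
    rw [huniv] at this
    simp only [Finset.mem_union] at this ⊢
    tauto)
  have hz := dd_univ G hG (P1 ∪ (P2 ∪ P3))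
  have hz2 : (P1 ∪ (P2 ∪ P3)).card ≤ P1.card + (P2.card + P3.card) :=
    (Finset.card_union_le _ _).trans (Nat.add_le_add_left (Finset.card_union_le _ _) _)
  have := huncut P4
  linarith

end Pool.Agent.H41.CL
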