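import Pool.Agent.H41.CL.Main

set_option autoImplicit false

/-! The main theorem from the statements `S_*`: choice of the parameters and the limit. -/

namespace Pool.Agent.H41.CL

open Finset Filter Topology

theorem good_of (hDET : S_DET) (δ : ℝ) (hδ : 0 < δ) (hδ1 : δ ≤ 1 / 100) (k K : ℕ)
    (hK : 48 / δ ≤ K) (hk : 100 / δ ≤ k) (G : SimpleGraph (Fin (2 * k))) (hG : Cubic G)
    (h1 : ∃ F : Finset (Sym2 (Fin (2 * k))), F.card ≤ ⌊δ * k / 24⌋₊ ∧ Acyc G F K)
    (h2 : ¬ ∃ X : Finset (Fin (2 * k)), k ≤ 70 * X.card ∧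
      (X.card : ℝ) ≤ (1 + δ) * k ∧ ((cutS G X).ncard : ℝ) ≤ δ * k)
    (h3 : ¬ ∃ X : Finset (Fin (2 * k)), 10 * (uncutS G X).ncard ≤ k) :
    1 + δ / 24 ≤ rho 2 G := by
  obtain ⟨F, hF, hA⟩ := h1
  have hk0 : (0 : ℝ) < k := lt_of_lt_of_le (by positivity) hk
  have hK0 : (0 : ℝ) < K := lt_of_lt_of_le (by positivity) hK
  have hkn : 0 < k := by exact_mod_cast hk0
  have hKn : 0 < K := by exact_mod_cast hK0
  have hdk : 100 ≤ δ * k := by
    rw [div_le_iff₀ hδ] at hk
    linarith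
  have hdK : 48 ≤ δ * K := by
    rw [div_le_iff₀ hδ] at hK
    linarith
  set t : ℕ := ⌈(1 + δ / 24) * k / 2⌉₊ + 1 with ht
  set D : ℕ := ⌊δ * k / 3⌋₊ with hD
  set A : ℕ := k / 70 with hAd
  have ht1 : (1 + δ / 24) * k / 2 + 1 ≤ t := by
    rw [ht]; push_cast
    linarith [Nat.le_ceil ((1 + δ / 24) * k / 2)]
  have ht2 : (t : ℝ) < (1 + δ / 24) * k / 2 + 2 := by
    rw [ht]; push_cast
    linarith [Nat.ceil_lt_add_one (show 0 ≤ (1 + δ / 24) * k / 2 by positivity)]
  have hD1 : (D : ℝ) ≤ δ * k / 3 := Nat.floor_le (by positivity)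
  have hD2 : δ * k / 3 < D + 1 := Nat.lt_floor_add_one _
  have hF1 : (F.card : ℝ) ≤ δ * k / 24 := by
    have h4 : (⌊δ * k / 24⌋₊ : ℝ) ≤ δ * k / 24 := Nat.floor_le (by positivity)
    have h5 : (F.card : ℝ) ≤ (⌊δ * k / 24⌋₊ : ℝ) := by exact_mod_cast hF
    linarith
  have hA1 : (A : ℝ) ≤ k / 70 := by
    have h4 : 70 * A ≤ k := by omega
    have h5 : (70 : ℝ) * A ≤ k := by exact_mod_cast h4
    linarith
  have hq : ((2 * k / K : ℕ) : ℝ) ≤ δ * k / 24 := by
    have h4 : ((2 * k / K : ℕ) : ℝ) ≤ ((2 * k : ℕ) : ℝ) / (K : ℝ) := Nat.cast_div_le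
    have h5 : ((2 * k : ℕ) : ℝ) / (K : ℝ) ≤ δ * k / 24 := by
      rw [div_le_iff₀ hK0]
      push_cast
      nlinarith
    linarith
  have hcard : Fintype.card (Fin (2 * k)) = 2 * k := Fintype.card_fin _
  have harr : Arrows G 2 (fun _ => t) := by
    apply hDET (Fin (2 * k)) G F K t D A hG
    · rw [hcard]; exact even_two_mul k
    · exact hKn
    · rw [hcard]
      have : (2 * t : ℝ) ≤ ((2 * k : ℕ) : ℝ) := by
        push_cast
        nlinarith
      exact_mod_cast this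
    · rw [hcard]
      have : ((4 * t + 2 * (2 * k / K : ℕ) + F.card : ℕ) : ℝ) ≤ ((2 * k + 4 + D : ℕ) : ℝ) := by
        push_cast at hq ⊢
        nlinarith
      exact_mod_cast this
    · exact hA
    · intro X hX hX2
      by_contra hcon
      push Not at hcon
      apply h2
      refine ⟨X, by omega, ?_, ?_⟩
      · rw [hcard] at hX
        have h4 : (X.card : ℝ) ≤ ((2 * t + 2 * k / K : ℕ) : ℝ) := by exact_mod_cast hX
        push_cast at h4 hq
        nlinarith
      · have h4 : ((cutS G X).ncard : ℝ) ≤ ((3 * D : ℕ) : ℝ) := by exact_mod_cast hX2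
        push_cast at h4
        linarith
    · intro X
      by_contra hcon
      push Not at hcon
      apply h3
      refine ⟨X, ?_⟩
      have h4 : ((uncutS G X).ncard : ℝ) ≤ ((3 * D + 6 * A : ℕ) : ℝ) := by exact_mod_cast hcon
      push_cast at h4
      have h5 : ((10 * (uncutS G X).ncard : ℕ) : ℝ) ≤ (k : ℝ) := by
        push_cast
        nlinarith
      exact_mod_cast h5
  -- an edge
  obtain ⟨v, hv⟩ : ∃ v, v ∈ G.neighborSet (⟨0, by omega⟩ : Fin (2 * k)) := by
    have h4 := hG ⟨0, by omega⟩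
    have h5 : (G.neighborSet (⟨0, by omega⟩ : Fin (2 * k))).Nonempty := by
      rw [Set.nonempty_iff_ne_empty]
      intro h6
      rw [h6] at h4
      simp at h4
    exact h5
  apply rho_ge G k t hcard (by omega) harr (δ / 24) _ (nu_pos G _ v hv) (by positivity)
  linarith

theorem main_of (hDET : S_DET) (hCYC : S_CYC) (hFIB : S_FIB) (hGR : S_GR) (hSIMP : S_SIMP)
    (hEXP : S_EXP) (hBIP : S_BIP) :
    ∃ ε : ℝ, 0 < ε ∧ Tendsto (fun k : ℕ =>
      ({G : SimpleGraph (Fin (2 * k)) | Cubic G ∧ 1 + ε ≤ rho 2 G}.ncard : ℝ) /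
        ({G : SimpleGraph (Fin (2 * k)) | Cubic G}.ncard : ℝ)) atTop (𝓝 1) := by
  obtain ⟨δ, hδ, hδ1, r1, hr1, hr1', k1, hE⟩ := hEXP
  obtain ⟨r2, hr2, hr2', k2, hB⟩ := hBIP
  obtain ⟨C, k3, hS⟩ := hSIMP
  set K : ℕ := ⌈48 / δ⌉₊ with hK
  have hK1 : 48 / δ ≤ K := Nat.le_ceil _
  obtain ⟨C1, hC1, n0, hC⟩ := hCYC K
  refine ⟨δ / 24, by positivity, ?_⟩
  -- the error
  set err : ℕ → ℝ := fun k => C1 / (⌊δ * k / 24⌋₊ : ℝ) + (k : ℝ) ^ C * r1 ^ k +
    (k : ℝ) ^ C * r2 ^ k with herr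
  have hlim : Tendsto err atTop (𝓝 0) := by
    have a1 : Tendsto (fun k : ℕ => C1 / (⌊δ * k / 24⌋₊ : ℝ)) atTop (𝓝 0) := by
      apply Filter.Tendsto.const_div_atTop
      apply tendsto_natCast_atTop_atTop.comp
      apply tendsto_nat_floor_atTop.comp
      apply Tendsto.atTop_div_const (by norm_num)
      exact Tendsto.const_mul_atTop hδ tendsto_natCast_atTop_atTop
    have a2 : Tendsto (fun k : ℕ => (k : ℝ) ^ C * r1 ^ k) atTop (𝓝 0) :=
      tendsto_pow_const_mul_const_pow_of_abs_lt_one C (by rw [abs_of_pos hr1]; exact hr1')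
    have a3 : Tendsto (fun k : ℕ => (k : ℝ) ^ C * r2 ^ k) atTop (𝓝 0) :=
      tendsto_pow_const_mul_const_pow_of_abs_lt_one C (by rw [abs_of_pos hr2]; exact hr2')
    have := (a1.add a2).add a3
    simpa using this
  have hmain : ∀ᶠ k : ℕ in atTop, 1 - err k ≤
      ({G : SimpleGraph (Fin (2 * k)) | Cubic G ∧ 1 + δ / 24 ≤ rho 2 G}.ncard : ℝ) /
        ({G : SimpleGraph (Fin (2 * k)) | Cubic G}.ncard : ℝ) := by
    filter_upwards [eventually_ge_atTop k1, eventually_ge_atTop k2, eventually_ge_atTop k3,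
      eventually_ge_atTop n0, eventually_ge_atTop ⌈100 / δ⌉₊] with k hk1 hk2 hk3 hn0 hkδ
    have hk : 100 / δ ≤ (k : ℝ) := (Nat.le_ceil _).trans (by exact_mod_cast hkδ)
    have hdk : 100 ≤ δ * k := by
      rw [div_le_iff₀ hδ] at hk
      linarith
    set cub : Set (SimpleGraph (Fin (2 * k))) := {G | Cubic G} with hcub
    set gd : Set (SimpleGraph (Fin (2 * k))) := {G | Cubic G ∧ 1 + δ / 24 ≤ rho 2 G} with hgd
    set B1 : Set (SimpleGraph (Fin (2 * k))) := {G | Cubic G ∧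
      ¬ ∃ F : Finset (Sym2 (Fin (2 * k))), F.card ≤ ⌊δ * k / 24⌋₊ ∧ Acyc G F K} with hB1
    set B2 : Set (SimpleGraph (Fin (2 * k))) := {G | Cubic G ∧
      ∃ X : Finset (Fin (2 * k)), k ≤ 70 * X.card ∧
      (X.card : ℝ) ≤ (1 + δ) * k ∧ ((cutS G X).ncard : ℝ) ≤ δ * k} with hB2
    set B3 : Set (SimpleGraph (Fin (2 * k))) := {G | Cubic G ∧
      ∃ X : Finset (Fin (2 * k)), 10 * (uncutS G X).ncard ≤ k} with hB3
    obtain ⟨c, hc0, hc⟩ := hFIB k
    -- number of simple configurations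
    have hs1 : c * cub.ncard = {τ : Q k ≃ P k | Simple τ}.ncard := by
      apply le_antisymm
      · exact transfer hc cub (fun G hG => hG) _ (fun τ h1 _ => h1)
      · classical
        have h5 : {τ : Q k ≃ P k | Simple τ} =
            ⋃ G ∈ cub, {τ : Q k ≃ P k | Simple τ ∧ Gr τ = G} := by
          ext τ
          simp only [Set.mem_ofPred_eq, Set.mem_iUnion, exists_prop]
          constructor
          · intro h
            exact ⟨Gr τ, (hGR k τ h).1, h, rfl⟩
          · rintro ⟨G, _, h, _⟩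
            exact h
        rw [h5]
        have h6 : (⋃ G ∈ cub, {τ : Q k ≃ P k | Simple τ ∧ Gr τ = G}) =
            ⋃ G ∈ (Set.toFinite cub).toFinset, {τ : Q k ≃ P k | Simple τ ∧ Gr τ = G} := by
          simp only [Set.Finite.mem_toFinset]
        rw [h6]
        refine (Finset.set_ncard_biUnion_le _ _).trans ?_
        rw [Finset.sum_congr rfl (fun G hG => hc G (by simpa using hG)), Finset.sum_const,
          smul_eq_mul, Set.ncard_eq_toFinset_card cub (Set.toFinite cub), mul_comm]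
    have hfac : ((6 * k).factorial : ℝ) ≤ (k : ℝ) ^ C * (c * cub.ncard) := by
      have h5 := hS k hk3
      rw [← hs1] at h5
      exact_mod_cast h5
    have hcubpos : 0 < (cub.ncard : ℝ) := by
      by_contra hcon
      have h5 : (cub.ncard : ℝ) = 0 := le_antisymm (not_lt.1 hcon) (by positivity)
      rw [h5] at hfac
      have : (0 : ℝ) < ((6 * k).factorial : ℝ) := by exact_mod_cast Nat.factorial_pos _
      rw [mul_zero, mul_zero] at hfac
      linarith
    have hcpos : (0 : ℝ) < c := by exact_mod_cast hc0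
    have hL : 1 ≤ ⌊δ * k / 24⌋₊ := by
      rw [Nat.one_le_floor_iff]
      linarith
    have b1 : (B1.ncard : ℝ) ≤ C1 / (⌊δ * k / 24⌋₊ : ℝ) * cub.ncard :=
      hC (2 * k) (by omega) _ hL
    have b2 : (B2.ncard : ℝ) ≤ (k : ℝ) ^ C * r1 ^ k * cub.ncard := by
      have h5 := transfer hc B2 (fun G hG => hG.1) {τ : Q k ≃ P k |
        ∃ X : Finset (Fin (2 * k)), k ≤ 70 * X.card ∧
        (X.card : ℝ) ≤ (1 + δ) * k ∧ (cutT τ X : ℝ) ≤ δ * k} (by
          rintro τ hτ ⟨_, X, x1, x2, x3⟩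
          refine ⟨X, x1, x2, ?_⟩
          rw [← ((hGR k τ hτ).2 X).1]
          exact x3)
      have h6 : (c : ℝ) * (B2.ncard : ℝ) ≤ r1 ^ k * ((6 * k).factorial : ℝ) := by
        refine le_trans ?_ (hE k hk1)
        exact_mod_cast h5
      have h7 : (c : ℝ) * (B2.ncard : ℝ) ≤ c * ((k : ℝ) ^ C * r1 ^ k * cub.ncard) := by
        calc (c : ℝ) * (B2.ncard : ℝ) ≤ r1 ^ k * ((6 * k).factorial : ℝ) := h6
          _ ≤ r1 ^ k * ((k : ℝ) ^ C * (c * cub.ncard)) := by
              apply mul_le_mul_of_nonneg_left hfac (by positivity)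
          _ = _ := by ring
      exact le_of_mul_le_mul_left h7 hcpos
    have b3 : (B3.ncard : ℝ) ≤ (k : ℝ) ^ C * r2 ^ k * cub.ncard := by
      have h5 := transfer hc B3 (fun G hG => hG.1) {τ : Q k ≃ P k |
        ∃ X : Finset (Fin (2 * k)), 10 * uncutT τ X ≤ k} (by
          rintro τ hτ ⟨_, X, x3⟩
          refine ⟨X, ?_⟩
          rw [← ((hGR k τ hτ).2 X).2]
          exact x3)
      have h6 : (c : ℝ) * (B3.ncard : ℝ) ≤ r2 ^ k * ((6 * k).factorial : ℝ) := by
        refine le_trans ?_ (hB k hk2)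
        exact_mod_cast h5
      have h7 : (c : ℝ) * (B3.ncard : ℝ) ≤ c * ((k : ℝ) ^ C * r2 ^ k * cub.ncard) := by
        calc (c : ℝ) * (B3.ncard : ℝ) ≤ r2 ^ k * ((6 * k).factorial : ℝ) := h6
          _ ≤ r2 ^ k * ((k : ℝ) ^ C * (c * cub.ncard)) := by
              apply mul_le_mul_of_nonneg_left hfac (by positivity)
          _ = _ := by ring
      exact le_of_mul_le_mul_left h7 hcpos
    have hsub : cub ⊆ gd ∪ (B1 ∪ (B2 ∪ B3)) := by
      intro G hG
      by_cases g1 : G ∈ B1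
      · exact Or.inr (Or.inl g1)
      by_cases g2 : G ∈ B2
      · exact Or.inr (Or.inr (Or.inl g2))
      by_cases g3 : G ∈ B3
      · exact Or.inr (Or.inr (Or.inr g3))
      left
      refine ⟨hG, ?_⟩
      apply good_of hDET δ hδ hδ1 k K hK1 hk G hG
      · by_contra hcon
        exact g1 ⟨hG, hcon⟩
      · intro hcon
        exact g2 ⟨hG, hcon⟩
      · intro hcon
        exact g3 ⟨hG, hcon⟩
    have hcount : (cub.ncard : ℝ) ≤ gd.ncard + (B1.ncard + (B2.ncard + B3.ncard)) := by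
      have h5 : cub.ncard ≤ gd.ncard + (B1.ncard + (B2.ncard + B3.ncard)) := by
        refine (Set.ncard_le_ncard hsub (Set.toFinite _)).trans ?_
        refine (Set.ncard_union_le _ _).trans ?_
        have h6 := Set.ncard_union_le B1 (B2 ∪ B3)
        have h7 := Set.ncard_union_le B2 B3
        omega
      exact_mod_cast h5
    rw [le_div_iff₀ hcubpos, herr]
    simp only
    nlinarith
  have hup : ∀ k : ℕ,
      ({G : SimpleGraph (Fin (2 * k)) | Cubic G ∧ 1 + δ / 24 ≤ rho 2 G}.ncard : ℝ) /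
        ({G : SimpleGraph (Fin (2 * k)) | Cubic G}.ncard : ℝ) ≤ 1 := by
    intro k
    apply div_le_one_of_le₀ _ (by positivity)
    have : {G : SimpleGraph (Fin (2 * k)) | Cubic G ∧ 1 + δ / 24 ≤ rho 2 G}.ncard ≤
        {G : SimpleGraph (Fin (2 * k)) | Cubic G}.ncard :=
      Set.ncard_le_ncard (fun G hG => hG.1) (Set.toFinite _)
    exact_mod_cast this
  have hlim' : Tendsto (fun k => 1 - err k) atTop (𝓝 1) := by
    have := hlim.const_sub 1
    simpa using this
  exact tendsto_of_tendsto_of_tendsto_of_le_of_le' hlim' tendsto_const_nhds hmain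
    (Filter.Eventually.of_forall hup)

end Pool.Agent.H41.CL
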