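import Pool.Agent.H41.CL.Defs2

set_option autoImplicit false

/-! The main theorem from the statements `S_*`. -/

namespace Pool.Agent.H41.CL

open Finset Filter Topology

section matching

variable {V : Type} [Fintype V] [DecidableEq V]

/-- A matching in a graph on `V` has at most `|V| / 2` edges. -/
theorem mat_card (G : SimpleGraph V) (M : Finset (Sym2 V)) (hM : ∀ e ∈ M, e ∈ G.edgeSet)
    (h : IsMat M) : 2 * M.card ≤ Fintype.card V := by
  classical
  have h1 : ∀ e ∈ M, e.toFinset.card = 2 := by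
    intro e he
    have := hM e he
    exact Sym2.card_toFinset_of_not_isDiag e (SimpleGraph.not_isDiag_of_mem_edgeSet G this)
  have h2 : (M.biUnion Sym2.toFinset).card = ∑ e ∈ M, e.toFinset.card := by
    apply Finset.card_biUnion
    intro e he f hf hef
    show Disjoint e.toFinset f.toFinset
    rw [Finset.disjoint_left]
    intro v hv hv'
    rw [Sym2.mem_toFinset] at hv hv'
    exact h e he f hf hef v hv hv'
  rw [Finset.sum_congr rfl h1, Finset.sum_const, smul_eq_mul] at h2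
  calc 2 * M.card = (M.biUnion Sym2.toFinset).card := by rw [h2]; ring
    _ ≤ Fintype.card V := Finset.card_le_univ _

theorem nu_le (G : SimpleGraph V) : 2 * nu G ≤ Fintype.card V := by
  have h : nu G ∈ {k | ∃ M : Finset (Sym2 V), (∀ e ∈ M, e ∈ G.edgeSet) ∧ IsMat M ∧ M.card = k} := by
    apply Nat.sSup_mem
    · exact ⟨0, ∅, by simp, by simp [IsMat], rfl⟩
    · refine ⟨Fintype.card V, ?_⟩
      rintro k ⟨M, h1, h2, rfl⟩
      have := mat_card G M h1 h2
      omega
  obtain ⟨M, h1, h2, h3⟩ := h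
  rw [← h3]
  exact mat_card G M h1 h2

theorem arrows_le (G : SimpleGraph V) (t : Fin 2 → ℕ) (ht : t ∈ TT 2 G) (i : Fin 2) :
    2 * t i ≤ Fintype.card V := by
  obtain ⟨h1, h2⟩ := ht
  obtain ⟨j, M, hM1, hM2, hM3⟩ := h2 (fun _ => i)
  by_cases hj : j = i
  · subst hj
    rw [← hM3]
    exact mat_card G M (fun e he => (hM1 e he).1) hM2
  · have : M = ∅ := by
      rw [Finset.eq_empty_iff_forall_notMem]
      intro e he
      exact hj (hM1 e he).2.symm
    rw [this] at hM3
    have := h1 j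
    simp at hM3
    omega

theorem bdd (G : SimpleGraph V) :
    BddAbove ((fun t : Fin 2 → ℕ => (Lam t : ℝ) + 1) '' TT 2 G) := by
  refine ⟨2 * (Fintype.card V : ℝ) + 1, ?_⟩
  rintro x ⟨t, ht, rfl⟩
  have h0 := arrows_le G t ht 0
  have h1 := arrows_le G t ht 1
  have : Lam t ≤ 2 * Fintype.card V := by
    unfold Lam
    rw [Fin.sum_univ_two]
    omega
  have : (Lam t : ℝ) ≤ 2 * (Fintype.card V : ℝ) := by exact_mod_cast this
  simp only
  linarith

theorem rho_ge (G : SimpleGraph V) (k t : ℕ) (hV : Fintype.card V = 2 * k) (ht : 1 ≤ t)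
    (h : Arrows G 2 (fun _ => t)) (ε : ℝ) (hε : (1 + ε) * k ≤ 2 * t - 1) (hk : 0 < nu G)
    (hε0 : 0 ≤ 1 + ε) :
    1 + ε ≤ rho 2 G := by
  have h1 : ((2 * t - 1 : ℝ)) ≤ sSup ((fun t : Fin 2 → ℕ => (Lam t : ℝ) + 1) '' TT 2 G) := by
    apply le_csSup (bdd G)
    refine ⟨fun _ => t, ⟨fun _ => ht, h⟩, ?_⟩
    simp only [Lam, Fin.sum_univ_two]
    push_cast [Nat.cast_sub ht]
    ring
  have h2 := nu_le G
  rw [hV] at h2
  have h3 : (nu G : ℝ) ≤ k := by
    have : nu G ≤ k := by omega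
    exact_mod_cast this
  have h4 : (0 : ℝ) < nu G := by exact_mod_cast hk
  unfold rho
  rw [one_div, inv_mul_eq_div, le_div_iff₀ h4]
  calc (1 + ε) * (nu G : ℝ) ≤ (1 + ε) * k := by
        apply mul_le_mul_of_nonneg_left h3 hε0
    _ ≤ _ := hε.trans h1

theorem nu_pos (G : SimpleGraph V) (u v : V) (h : G.Adj u v) : 0 < nu G := by
  have h1 : 1 ∈ {k | ∃ M : Finset (Sym2 V), (∀ e ∈ M, e ∈ G.edgeSet) ∧ IsMat M ∧ M.card = k} := by
    refine ⟨{s(u, v)}, by simpa using h, ?_, by simp⟩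
    intro e he f hf hef
    rw [Finset.mem_singleton] at he hf
    exact absurd (he.trans hf.symm) hef
  have h2 : BddAbove {k | ∃ M : Finset (Sym2 V), (∀ e ∈ M, e ∈ G.edgeSet) ∧ IsMat M ∧
      M.card = k} := by
    refine ⟨Fintype.card V, ?_⟩
    rintro k ⟨M, h1, h2, rfl⟩
    have := mat_card G M h1 h2
    omega
  exact le_csSup h2 h1

end matching

/-- Transfer from configurations to cubic graphs. -/
theorem transfer {k c : ℕ} (hc : ∀ G : SimpleGraph (Fin (2 * k)), Cubic G →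
      {τ : Q k ≃ P k | Simple τ ∧ Gr τ = G}.ncard = c)
    (B : Set (SimpleGraph (Fin (2 * k)))) (hB : ∀ G ∈ B, Cubic G) (E : Set (Q k ≃ P k))
    (hE : ∀ τ, Simple τ → Gr τ ∈ B → τ ∈ E) : c * B.ncard ≤ E.ncard := by
  classical
  have hBf : B.Finite := Set.toFinite B
  set B' := hBf.toFinset with hB'
  have h1 : B.ncard = B'.card := Set.ncard_eq_toFinset_card B hBf
  set S : Finset (Q k ≃ P k) := univ.filter (fun τ => Simple τ ∧ Gr τ ∈ B) with hS
  have h2 : S.card = ∑ G ∈ B', (S.filter (fun τ => Gr τ = G)).card := by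
    apply Finset.card_eq_sum_card_fiberwise
    intro τ hτ
    have := (Finset.mem_filter.1 hτ).2.2
    exact hBf.mem_toFinset.2 this
  have h3 : ∀ G ∈ B', (S.filter (fun τ => Gr τ = G)).card = c := by
    intro G hG
    have hG' : G ∈ B := hBf.mem_toFinset.1 hG
    rw [← hc G (hB G hG')]
    rw [Set.ncard_eq_toFinset_card']
    congr 1
    ext τ
    simp only [hS, Finset.mem_filter, Finset.mem_univ, true_and, Set.mem_toFinset,
      Set.mem_ofPred_eq]
    constructor
    · rintro ⟨⟨a, _⟩, b⟩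
      exact ⟨a, b⟩
    · rintro ⟨a, b⟩
      exact ⟨⟨a, b ▸ hG'⟩, b⟩
  rw [Finset.sum_congr rfl h3, Finset.sum_const, smul_eq_mul] at h2
  have h4 : S.card ≤ E.ncard := by
    rw [← Set.ncard_coe_finset]
    apply Set.ncard_le_ncard _ (Set.toFinite E)
    intro τ hτ
    have := (Finset.mem_filter.1 (Finset.mem_coe.1 hτ)).2
    exact hE τ this.1 this.2
  rw [h1]
  calc c * B'.card = B'.card * c := by ring
    _ = S.card := h2.symm
    _ ≤ _ := h4

end Pool.Agent.H41.CL
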