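import Pool.Agent.H41.CL.Defs2

set_option autoImplicit false

/-! `S_CONJ → S_INV → S_FIB` and `S_MEAN → S_SWI → S_SIMP`. -/

namespace Pool.Agent.H41.CL

open Finset

theorem mate_mate {k : ℕ} (τ : Q k ≃ P k) (p : P k) : mate τ (mate τ p) = p := by
  unfold mate
  simp only [Equiv.symm_apply_apply, Bool.not_not]
  exact τ.apply_symm_apply p

theorem mate_ne {k : ℕ} (τ : Q k ≃ P k) (p : P k) : mate τ p ≠ p := by
  intro h
  have h1 : τ.symm (mate τ p) = τ.symm p := by rw [h]
  unfold mate at h1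
  rw [Equiv.symm_apply_apply] at h1
  have h2 := congrArg Prod.snd h1
  simp at h2

theorem t_FIB (hC : S_CONJ) (hI : S_INV) : S_FIB := by
  intro k
  obtain ⟨c0, hc0, hc⟩ := hC k
  refine ⟨6 ^ (2 * k) * c0, by positivity, ?_⟩
  intro G hG
  classical
  set I : Set (P k → P k) := {σ : P k → P k | (∀ p, σ (σ p) = p) ∧ (∀ p, σ p ≠ p) ∧
      (∀ p p' : P k, p ≠ p' → p.1 = p'.1 → (σ p).1 ≠ (σ p').1) ∧
      ∀ u v, G.Adj u v ↔ ∃ p : P k, p.1 = u ∧ (σ p).1 = v} with hIdef
  have hIc : I.ncard = 6 ^ (2 * k) := hI k G hG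
  have hIf : I.Finite := Set.toFinite I
  set J := hIf.toFinset with hJ
  have hIJ : I.ncard = J.card := Set.ncard_eq_toFinset_card I hIf
  set T : Finset (Q k ≃ P k) := univ.filter (fun τ => Simple τ ∧ Gr τ = G) with hT
  have hTn : {τ : Q k ≃ P k | Simple τ ∧ Gr τ = G}.ncard = T.card := by
    rw [Set.ncard_eq_toFinset_card']
    congr 1
    ext τ
    simp [hT]
  -- the involution of a configuration
  have hmem : ∀ τ ∈ T, mate τ ∈ J := by
    intro τ hτ
    obtain ⟨h1, h2⟩ := (Finset.mem_filter.1 hτ).2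
    apply hIf.mem_toFinset.2
    refine ⟨mate_mate τ, mate_ne τ, h1, ?_⟩
    intro u v
    rw [← h2]
    unfold Gr
    rw [SimpleGraph.fromRel_adj]
    constructor
    · rintro ⟨_, h | h⟩
      · exact h
      · obtain ⟨p, hp1, hp2⟩ := h
        exact ⟨mate τ p, hp2, by rw [mate_mate]; exact hp1⟩
    · rintro ⟨p, hp1, hp2⟩
      refine ⟨?_, Or.inl ⟨p, hp1, hp2⟩⟩
      intro huv
      subst huv
      apply h1 p (mate τ p) (mate_ne τ p).symm
      · rw [hp1, hp2]
      · rw [mate_mate, hp1, hp2]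
  have hsum : T.card = ∑ σ ∈ J, (T.filter (fun τ => mate τ = σ)).card :=
    Finset.card_eq_sum_card_fiberwise hmem
  have hfib : ∀ σ ∈ J, (T.filter (fun τ => mate τ = σ)).card = c0 := by
    intro σ hσ
    obtain ⟨h1, h2, h3, h4⟩ := hIf.mem_toFinset.1 hσ
    rw [← hc σ h1 h2, Set.ncard_eq_toFinset_card']
    congr 1
    ext τ
    simp only [hT, Finset.mem_filter, Finset.mem_univ, true_and, Set.mem_toFinset,
      Set.mem_ofPred_eq]
    constructor
    · rintro ⟨_, h⟩ p
      rw [h]
    · intro h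
      have h' : mate τ = σ := funext h
      refine ⟨⟨?_, ?_⟩, h'⟩
      · intro p p' hp hp'
        rw [h']
        exact h3 p p' hp hp'
      · ext u v
        unfold Gr
        rw [SimpleGraph.fromRel_adj, h4, h']
        constructor
        · rintro ⟨_, h5 | h5⟩
          · exact h5
          · obtain ⟨p, hp1, hp2⟩ := h5
            exact ⟨σ p, hp2, by rw [h1]; exact hp1⟩
        · rintro ⟨p, hp1, hp2⟩
          refine ⟨?_, Or.inl ⟨p, hp1, hp2⟩⟩
          intro huv
          subst huv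
          apply h3 p (σ p) (h2 p).symm
          · rw [hp1, hp2]
          · rw [h1, hp1, hp2]
  rw [hTn, hsum, Finset.sum_congr rfl hfib, Finset.sum_const, smul_eq_mul, ← hIJ, hIc]

theorem t_SIMP (hM : S_MEAN) (hS : S_SWI) : S_SIMP := by
  obtain ⟨c1, k1, hM⟩ := hM
  obtain ⟨k2, hS⟩ := hS (2 * c1)
  refine ⟨3 * (2 * c1) + 1, max (max k1 k2) 37, ?_⟩
  intro k hk
  have hk1 : k1 ≤ k := le_trans (le_trans (le_max_left _ _) (le_max_left _ _)) hk
  have hk2 : k2 ≤ k := le_trans (le_trans (le_max_right _ _) (le_max_left _ _)) hk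
  have hk3 : 37 ≤ k := le_trans (le_max_right _ _) hk
  classical
  set f : ℕ → Finset (Q k ≃ P k) := fun j => univ.filter (fun τ => bad τ ≤ j) with hf
  have hcard : Fintype.card (Q k ≃ P k) = (6 * k).factorial := by
    rw [Fintype.card_equiv (Fintype.equivOfCardEq (by simp; ring))]
    congr 1
    simp
    ring
  -- Markov
  have hmk : (6 * k).factorial ≤ 2 * (f (2 * c1)).card := by
    have h1 := hM k hk1
    have h2 : (univ.filter (fun τ : Q k ≃ P k => ¬ bad τ ≤ 2 * c1)).card * (2 * c1 + 1) ≤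
        ∑ τ : Q k ≃ P k, bad τ := by
      calc (univ.filter (fun τ : Q k ≃ P k => ¬ bad τ ≤ 2 * c1)).card * (2 * c1 + 1)
          = ∑ τ ∈ univ.filter (fun τ : Q k ≃ P k => ¬ bad τ ≤ 2 * c1), (2 * c1 + 1) := by
            rw [Finset.sum_const, smul_eq_mul]
        _ ≤ ∑ τ ∈ univ.filter (fun τ : Q k ≃ P k => ¬ bad τ ≤ 2 * c1), bad τ := by
            apply Finset.sum_le_sum
            intro τ hτ
            have := (Finset.mem_filter.1 hτ).2
            omega
        _ ≤ _ := Finset.sum_le_sum_of_subset (Finset.filter_subset _ _)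
    have h3 : (f (2 * c1)).card + (univ.filter (fun τ : Q k ≃ P k => ¬ bad τ ≤ 2 * c1)).card =
        (6 * k).factorial := by
      rw [← hcard, ← Finset.card_univ]
      exact Finset.card_filter_add_card_filter_not _
    set N := (6 * k).factorial
    set b := (univ.filter (fun τ : Q k ≃ P k => ¬ bad τ ≤ 2 * c1)).card
    set g := (f (2 * c1)).card
    have h4 : b * (2 * c1 + 1) ≤ c1 * N := h2.trans h1
    by_contra hcon
    push Not at hcon
    have h5 : N < 2 * b := by omega
    have h6 : c1 * N ≤ c1 * (2 * b) := Nat.mul_le_mul_left _ h5.le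
    have h7 : b * (2 * c1 + 1) = c1 * (2 * b) + b := by ring
    omega
  -- one step
  have hstep : ∀ j, j + 1 ≤ 2 * c1 → (f (j + 1)).card ≤ (1 + (6 * k) ^ 2) * (f j).card := by
    intro j hj
    have h1 : f (j + 1) ⊆ f j ∪ (f (j + 1) \ f j) := by
      intro τ hτ
      by_cases h : τ ∈ f j
      · exact Finset.mem_union_left _ h
      · exact Finset.mem_union_right _ (Finset.mem_sdiff.2 ⟨hτ, h⟩)
    have h2 : (f (j + 1) \ f j).card ≤ ((univ : Finset (P k × P k)) ×ˢ f j).card := by
      have h3 : ∀ τ : Q k ≃ P k, ∃ ab : P k × P k, τ ∈ f (j + 1) \ f j →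
          bad (τ.trans (Equiv.swap ab.1 ab.2)) < bad τ := by
        intro τ
        by_cases h : τ ∈ f (j + 1) \ f j
        · have h4 := Finset.mem_sdiff.1 h
          have h5 := (Finset.mem_filter.1 h4.1).2
          have h6 : ¬ bad τ ≤ j := fun h' => h4.2 (Finset.mem_filter.2 ⟨Finset.mem_univ _, h'⟩)
          obtain ⟨a, b, hab⟩ := hS k hk2 τ (by omega) (by omega)
          exact ⟨(a, b), fun _ => hab⟩
        · by_cases h0 : Nonempty (P k)
          · exact ⟨(h0.some, h0.some), fun h' => absurd h' h⟩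
          · exact absurd ⟨(⟨0, by omega⟩, 0)⟩ h0
      choose g hg using h3
      apply Finset.card_le_card_of_injOn (fun τ => (g τ, τ.trans (Equiv.swap (g τ).1 (g τ).2)))
      · intro τ hτ
        have hτ' := Finset.mem_coe.1 hτ
        have h4 := Finset.mem_sdiff.1 hτ'
        have h5 := (Finset.mem_filter.1 h4.1).2
        have h6 := hg τ hτ'
        apply Finset.mem_coe.2
        rw [Finset.mem_product]
        refine ⟨Finset.mem_univ _, Finset.mem_filter.2 ⟨Finset.mem_univ _, ?_⟩⟩
        simp only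
        omega
      · intro τ _ τ' _ h
        have h4 : g τ = g τ' := congrArg Prod.fst h
        have h5 : τ.trans (Equiv.swap (g τ).1 (g τ).2) =
            τ'.trans (Equiv.swap (g τ').1 (g τ').2) := congrArg Prod.snd h
        rw [h4] at h5
        ext x : 1
        have h6 := Equiv.congr_fun h5 x
        simp only [Equiv.trans_apply] at h6
        exact (Equiv.swap (g τ').1 (g τ').2).injective h6
    have h3 : ((univ : Finset (P k × P k)) ×ˢ f j).card = (6 * k) ^ 2 * (f j).card := by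
      rw [Finset.card_product, Finset.card_univ]
      congr 1
      simp
      ring
    calc (f (j + 1)).card ≤ (f j ∪ (f (j + 1) \ f j)).card := Finset.card_le_card h1
      _ ≤ (f j).card + (f (j + 1) \ f j).card := Finset.card_union_le _ _
      _ ≤ (f j).card + (6 * k) ^ 2 * (f j).card := by
          rw [← h3]
          exact Nat.add_le_add_left h2 _
      _ = _ := by ring
  have hall : ∀ j, j ≤ 2 * c1 → (f j).card ≤ (k ^ 3) ^ j * (f 0).card := by
    intro j
    induction j with
    | zero => intro _; simp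
    | succ j ih =>
      intro hj
      have h1 := hstep j hj
      have h2 := ih (by omega)
      have h3 : 1 + (6 * k) ^ 2 ≤ k ^ 3 := by nlinarith [sq_nonneg (k : ℤ), hk3]
      calc (f (j + 1)).card ≤ (1 + (6 * k) ^ 2) * (f j).card := h1
        _ ≤ k ^ 3 * ((k ^ 3) ^ j * (f 0).card) := Nat.mul_le_mul h3 h2
        _ = _ := by ring
  have h0 : (f 0).card ≤ {τ : Q k ≃ P k | Simple τ}.ncard := by
    rw [← Set.ncard_coe_finset]
    apply Set.ncard_le_ncard _ (Set.toFinite _)
    intro τ hτ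
    have h1 : bad τ ≤ 0 := (Finset.mem_filter.1 (Finset.mem_coe.1 hτ)).2
    intro p p' hp hp' hcon
    have h2 : bad τ = 0 := by omega
    unfold bad at h2
    rw [Finset.card_eq_zero] at h2
    have h3 : (p, p') ∈ univ.filter (fun x : P k × P k => x.1 ≠ x.2 ∧ x.1.1 = x.2.1 ∧
      (mate τ x.1).1 = (mate τ x.2).1) := Finset.mem_filter.2 ⟨Finset.mem_univ _, hp, hp', hcon⟩
    rw [h2] at h3
    exact absurd h3 (Finset.notMem_empty _)
  calc (6 * k).factorial ≤ 2 * (f (2 * c1)).card := hmk
    _ ≤ k * ((k ^ 3) ^ (2 * c1) * (f 0).card) := Nat.mul_le_mul (by omega) (hall _ le_rfl)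
    _ ≤ k * ((k ^ 3) ^ (2 * c1) * {τ : Q k ≃ P k | Simple τ}.ncard) :=
        Nat.mul_le_mul_left _ (Nat.mul_le_mul_left _ h0)
    _ = _ := by rw [pow_succ, pow_mul]; ring

end Pool.Agent.H41.CL
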