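import Pool.Agent.H41.CL.Defs2

set_option autoImplicit false

namespace Pool.Agent.H41.CL

open Finset

theorem t_SUB : S_SUB := by
  intro Q P _ _ _ _ N a hQ hP B hB 𝒜 h𝒜
  classical
  -- number of preimages
  set f : Finset Q → ℕ := fun A =>
    (univ.filter (fun τ : Q ≃ P => B.map τ.symm.toEmbedding = A)).card with hf
  have hconst : ∀ A A' : Finset Q, A.card = a → A'.card = a → f A ≤ f A' := by
    intro A A' hA hA'
    have hcard : Fintype.card {x // x ∈ A} = Fintype.card {x // x ∈ A'} := by
      simp [hA, hA']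
    let e : {x // x ∈ A} ≃ {x // x ∈ A'} := Fintype.equivOfCardEq hcard
    let π : Equiv.Perm Q := e.extendSubtype
    have hπ : A.map π.toEmbedding = A' := by
      apply Finset.eq_of_subset_of_card_le
      · intro y hy
        rw [Finset.mem_map] at hy
        obtain ⟨x, hx, rfl⟩ := hy
        exact e.extendSubtype_mem x hx
      · rw [Finset.card_map, hA, hA']
    apply Finset.card_le_card_of_injOn (fun τ => π.symm.trans τ)
    · intro τ hτ
      have h1 := (Finset.mem_filter.1 (Finset.mem_coe.1 hτ)).2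
      apply Finset.mem_coe.2
      rw [Finset.mem_filter]
      refine ⟨Finset.mem_univ _, ?_⟩
      rw [← hπ, ← h1, Finset.map_map]
      rfl
    · intro τ _ τ' _ h
      ext x
      have := congrArg (fun g : Q ≃ P => g (π x)) h
      simpa using this
  have hsum : ∀ 𝒜 : Finset (Finset Q),
      (univ.filter (fun τ : Q ≃ P => B.map τ.symm.toEmbedding ∈ 𝒜)).card = ∑ A ∈ 𝒜, f A := by
    intro 𝒜
    rw [Finset.card_eq_sum_card_fiberwise (f := fun τ : Q ≃ P => B.map τ.symm.toEmbedding)
      (t := 𝒜)]
    · apply Finset.sum_congr rfl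
      intro A hA
      simp only [hf]
      congr 1
      ext τ
      simp only [Finset.mem_filter, Finset.mem_univ, true_and]
      constructor
      · rintro ⟨_, h⟩
        exact h
      · intro h
        exact ⟨h ▸ hA, h⟩
    · intro τ hτ
      exact (Finset.mem_filter.1 (Finset.mem_coe.1 hτ)).2
  have hall := hsum (Finset.powersetCard a univ)
  have hall' : (univ.filter (fun τ : Q ≃ P =>
      B.map τ.symm.toEmbedding ∈ Finset.powersetCard a univ)).card = N.factorial := by
    rw [Finset.filter_true_of_mem, Finset.card_univ, Fintype.card_equiv (Fintype.equivOfCardEq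
      (hQ.trans hP.symm)), hQ]
    intro τ _
    rw [Finset.mem_powersetCard]
    exact ⟨Finset.subset_univ _, by rw [Finset.card_map, hB]⟩
  rw [hall'] at hall
  have hlhs : {τ : Q ≃ P | B.map τ.symm.toEmbedding ∈ 𝒜}.ncard = ∑ A ∈ 𝒜, f A := by
    rw [← hsum 𝒜, Set.ncard_eq_toFinset_card']
    congr 1
    ext τ
    simp
  rw [hlhs]
  rcases 𝒜.eq_empty_or_nonempty with h0 | ⟨A0, hA0⟩
  · subst h0
    simp
  · have hA0' := h𝒜 A0 hA0
    have h1 : ∑ A ∈ 𝒜, f A = 𝒜.card * f A0 := by
      rw [Finset.sum_congr rfl (fun A hA => le_antisymm (hconst A A0 (h𝒜 A hA) hA0')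
        (hconst A0 A hA0' (h𝒜 A hA))), Finset.sum_const, smul_eq_mul]
    have h2 : ∑ A ∈ Finset.powersetCard a (univ : Finset Q), f A = N.choose a * f A0 := by
      rw [Finset.sum_congr rfl (fun A hA => le_antisymm
        (hconst A A0 (Finset.mem_powersetCard.1 hA).2 hA0')
        (hconst A0 A hA0' (Finset.mem_powersetCard.1 hA).2)), Finset.sum_const, smul_eq_mul,
        Finset.card_powersetCard, Finset.card_univ, hQ]
    rw [h1, hall, h2]
    ring

end Pool.Agent.H41.CL
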